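import Pool.Agent.Helper92.UQ.Goals

/-!
# MP_a41896_nt (project T3, UNIQUENESS), packet T3-ODE: existence, uniqueness and scaling of the formal solution.

The solution is `X = Φ x`, `Y = Φ y` where `Φ f = ∑ D^n f (p, s) t^n / n!` is the flow of the derivation `D x = y`, `D y = B'(x) / 2`.
-/

set_option autoImplicit false
set_option linter.unusedSectionVars false

namespace Pool.Agent.Helper66.UQ.ODE

open Pool.Agent.Helper92.UQ

noncomputable section

variable {Ω : Type} [Field Ω]

/-- the derivation `x ↦ y`, `y ↦ B'(x) / 2` -/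
def Dr (B : Polynomial Ω) : Derivation Ω (MvPolynomial (Fin 2) Ω) (MvPolynomial (Fin 2) Ω) :=
  MvPolynomial.mkDerivation Ω ![MvPolynomial.X 1,
    MvPolynomial.C (1 / 2) * Polynomial.aeval (MvPolynomial.X 0) (Polynomial.derivative B)]

/-- the flow -/
def Ph (B : Polynomial Ω) (p s : Ω) (f : MvPolynomial (Fin 2) Ω) : PowerSeries Ω :=
  PowerSeries.mk fun n => MvPolynomial.eval ![p, s] ((Dr B)^[n] f) / n.factorial

variable [CharZero Ω]

theorem Ph_der (B : Polynomial Ω) (p s : Ω) (f : MvPolynomial (Fin 2) Ω) :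
    PowerSeries.derivative Ω (Ph B p s f) = Ph B p s (Dr B f) := by
  ext n
  rw [PowerSeries.coeff_derivative, Ph, Ph, PowerSeries.coeff_mk, PowerSeries.coeff_mk,
    Function.iterate_succ_apply, Nat.factorial_succ]
  have h1 : ((n : Ω) + 1) ≠ 0 := Nat.cast_add_one_ne_zero n
  have h2 : (n.factorial : Ω) ≠ 0 := Nat.cast_ne_zero.2 n.factorial_ne_zero
  push_cast
  field_simp

theorem Ph_add (B : Polynomial Ω) (p s : Ω) (f g : MvPolynomial (Fin 2) Ω) :
    Ph B p s (f + g) = Ph B p s f + Ph B p s g := by
  ext n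
  rw [map_add, Ph, Ph, Ph, PowerSeries.coeff_mk, PowerSeries.coeff_mk, PowerSeries.coeff_mk,
    iterate_map_add, map_add, add_div]

theorem Ph_zero (B : Polynomial Ω) (p s : Ω) : Ph B p s 0 = 0 := by
  ext n
  rw [Ph, PowerSeries.coeff_mk, iterate_map_zero, map_zero, map_zero, zero_div]

theorem Ph_const (B : Polynomial Ω) (p s : Ω) (f : MvPolynomial (Fin 2) Ω) :
    PowerSeries.constantCoeff (Ph B p s f) = MvPolynomial.eval ![p, s] f := by
  rw [← PowerSeries.coeff_zero_eq_constantCoeff_apply, Ph, PowerSeries.coeff_mk]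
  simp

theorem Ph_C (B : Polynomial Ω) (p s c : Ω) : Ph B p s (MvPolynomial.C c) = PowerSeries.C c := by
  apply PowerSeries.derivative.ext
  · rw [Ph_der, PowerSeries.derivative_C]
    have : Dr B (MvPolynomial.C c) = 0 := by
      rw [← MvPolynomial.algebraMap_eq, Derivation.map_algebraMap]
    rw [this, Ph_zero]
  · rw [Ph_const]
    simp

theorem Ph_mul (B : Polynomial Ω) (p s : Ω) (f g : MvPolynomial (Fin 2) Ω) :
    Ph B p s (f * g) = Ph B p s f * Ph B p s g := by
  ext n
  induction n generalizing f g with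
  | zero =>
    rw [PowerSeries.coeff_zero_eq_constantCoeff_apply, PowerSeries.coeff_zero_eq_constantCoeff_apply,
      map_mul, Ph_const, Ph_const, Ph_const, map_mul]
  | succ n ih =>
    have h1 : ((n : Ω) + 1) ≠ 0 := Nat.cast_add_one_ne_zero n
    apply mul_right_cancel₀ h1
    rw [← PowerSeries.coeff_derivative, ← PowerSeries.coeff_derivative, Ph_der, Derivation.leibniz,
      Derivation.leibniz, Ph_add, map_add, map_add, smul_eq_mul, smul_eq_mul, smul_eq_mul,
      smul_eq_mul, ih, ih, Ph_der, Ph_der]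

/-- the flow as a homomorphism -/
def PhA (B : Polynomial Ω) (p s : Ω) : MvPolynomial (Fin 2) Ω →ₐ[Ω] PowerSeries Ω where
  toFun := Ph B p s
  map_one' := by rw [← MvPolynomial.C_1, Ph_C, map_one]
  map_mul' := Ph_mul B p s
  map_zero' := Ph_zero B p s
  map_add' := Ph_add B p s
  commutes' := fun c => Ph_C B p s c

theorem exist (B : Polynomial Ω) (p s : Ω) : ∃ X Y, Sol B p s X Y := by
  refine ⟨Ph B p s (MvPolynomial.X 0), Ph B p s (MvPolynomial.X 1), ?_, ?_, ?_, ?_⟩
  · rw [Ph_der]
    congr 1
    rw [Dr, MvPolynomial.mkDerivation_X]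
    rfl
  · have h1 : Dr B (MvPolynomial.X 1) = MvPolynomial.C (1 / 2) *
        Polynomial.aeval (MvPolynomial.X 0) (Polynomial.derivative B) := by
      rw [Dr, MvPolynomial.mkDerivation_X]
      rfl
    rw [Ph_der, h1, Ph_mul, Ph_C, ← mul_assoc]
    have h2 : (2 : PowerSeries Ω) * PowerSeries.C (1 / 2) = 1 := by
      have : (2 : PowerSeries Ω) = PowerSeries.C 2 := (map_ofNat PowerSeries.C 2).symm
      rw [this, ← map_mul]
      norm_num
    rw [h2, one_mul]
    exact (Polynomial.aeval_algHom_apply (PhA B p s) (MvPolynomial.X 0)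
      (Polynomial.derivative B)).symm
  · rw [Ph_const]
    simp
  · rw [Ph_const]
    simp

theorem uniq (q : Polynomial Ω) (a : Ω) (f g F G : PowerSeries Ω)
    (h0 : PowerSeries.constantCoeff f = PowerSeries.constantCoeff F)
    (h1 : PowerSeries.constantCoeff g = PowerSeries.constantCoeff G)
    (h2 : PowerSeries.derivative Ω f = PowerSeries.C a * g)
    (h3 : PowerSeries.derivative Ω F = PowerSeries.C a * G)
    (h4 : 2 * PowerSeries.derivative Ω g = PowerSeries.C a * Polynomial.aeval f q)
    (h5 : 2 * PowerSeries.derivative Ω G = PowerSeries.C a * Polynomial.aeval F q) : f = F := by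
  have key : ∀ m : ℕ, (PowerSeries.X : PowerSeries Ω) ^ m ∣ f - F ∧
      (PowerSeries.X : PowerSeries Ω) ^ m ∣ g - G := by
    intro m
    induction m with
    | zero => simp
    | succ m ih =>
      obtain ⟨ih1, ih2⟩ := ih
      have hd : ∀ u v : PowerSeries Ω, PowerSeries.constantCoeff u = PowerSeries.constantCoeff v →
          (PowerSeries.X : PowerSeries Ω) ^ m ∣ 2 * PowerSeries.derivative Ω (u - v) →
          (PowerSeries.X : PowerSeries Ω) ^ (m + 1) ∣ u - v := by
        intro u v huv h
        rw [PowerSeries.X_pow_dvd_iff] at h ⊢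
        intro k hk
        cases k with
        | zero => rw [PowerSeries.coeff_zero_eq_constantCoeff_apply, map_sub, huv, sub_self]
        | succ j =>
          have h6 := h j (by omega)
          rw [two_mul, map_add, PowerSeries.coeff_derivative, ← two_mul] at h6
          have h7 : ((j : Ω) + 1) ≠ 0 := Nat.cast_add_one_ne_zero j
          rcases mul_eq_zero.1 h6 with h8 | h8
          · exact absurd h8 two_ne_zero
          · rcases mul_eq_zero.1 h8 with h9 | h9
            · exact h9
            · exact absurd h9 h7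
      refine ⟨hd f F h0 ?_, hd g G h1 ?_⟩
      · rw [map_sub, h2, h3, ← mul_sub, ← mul_assoc]
        exact ih2.mul_left _
      · rw [map_sub, mul_sub, h4, h5, ← mul_sub]
        refine Dvd.dvd.mul_left (ih1.trans ?_) _
        rw [← Polynomial.eval_map_algebraMap, ← Polynomial.eval_map_algebraMap]
        exact Polynomial.sub_dvd_eval_sub _ _ _
  rw [← sub_eq_zero]
  ext n
  exact PowerSeries.X_pow_dvd_iff.1 (key (n + 1)).1 n (by omega)

theorem rescale_der (a : Ω) (f : PowerSeries Ω) :
    PowerSeries.derivative Ω (PowerSeries.rescale a f) =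
      PowerSeries.C a * PowerSeries.rescale a (PowerSeries.derivative Ω f) := by
  ext n
  rw [PowerSeries.coeff_derivative, PowerSeries.coeff_C_mul, PowerSeries.coeff_rescale,
    PowerSeries.coeff_rescale, PowerSeries.coeff_derivative]
  ring

theorem t : Pool.Agent.Helper92.UQ.ODE := by
  intro Ω _ _ B p s
  refine ⟨exist B p s, ?_⟩
  intro X Y hS a f g hf hg hf' hg'
  refine uniq (Polynomial.derivative B) a f g (PowerSeries.rescale a X) (PowerSeries.rescale a Y)
    ?_ ?_ hf' ?_ hg' ?_
  · rw [hf, ← PowerSeries.coeff_zero_eq_constantCoeff_apply, PowerSeries.coeff_rescale, pow_zero,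
      one_mul, PowerSeries.coeff_zero_eq_constantCoeff_apply, hS.cX]
  · rw [hg, ← PowerSeries.coeff_zero_eq_constantCoeff_apply, PowerSeries.coeff_rescale, pow_zero,
      one_mul, PowerSeries.coeff_zero_eq_constantCoeff_apply, hS.cY]
  · rw [rescale_der, hS.dX]
  · rw [rescale_der]
    have h1 : PowerSeries.rescale a (2 * PowerSeries.derivative Ω Y) =
        PowerSeries.rescale a (Polynomial.aeval X (Polynomial.derivative B)) := by rw [hS.dY]
    rw [map_mul, map_ofNat] at h1
    rw [mul_left_comm, h1]
    congr 1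
    have h2 := Polynomial.aeval_algHom_apply (PowerSeries.rescaleAlgHom a) X
      (Polynomial.derivative B)
    have h3 : ∀ f : PowerSeries Ω, PowerSeries.rescaleAlgHom a f = PowerSeries.rescale a f :=
      fun f => by rw [← PowerSeries.coe_rescaleAlgHom]; rfl
    rw [h3, h3] at h2
    exact h2.symm

end

end Pool.Agent.Helper66.UQ.ODE
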